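import Pool.Agent.H61.Rz.Rein
import Pool.Agent.H66.RH.Fin

/-!
# Reinhardt's conjecture

The least lattice packing density of a centrally symmetric convex disk is
`(8 - √32 - log 2) / (√8 - 1) = 0.902414…`, and the smoothed octagon is a disk with this density.
-/

set_option autoImplicit false

namespace Pool.Agent.Results.MP_8c99c3_co.Reinhardt

open MeasureTheory

/-- `K` is a centrally symmetric convex disk, with some centre `c`. -/
def IsSymmetricDisk (K : Set (ℝ × ℝ)) : Prop :=
  IsCompact K ∧ Convex ℝ K ∧ (interior K).Nonempty ∧ ∃ c : ℝ × ℝ, ∀ x ∈ K, c + c - x ∈ K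

/-- The translate `K + m v + n w`, where `a = (m, n)`. -/
def translate (K : Set (ℝ × ℝ)) (v w : ℝ × ℝ) (a : ℤ × ℤ) : Set (ℝ × ℝ) :=
  (fun x => x + (a.1 • v + a.2 • w)) '' K

/-- `v, w` is a basis of the plane, and the translates of `K` by the vectors of the lattice with this
basis are a packing: distinct translates have disjoint interiors. -/
def IsLatticePacking (K : Set (ℝ × ℝ)) (v w : ℝ × ℝ) : Prop :=
  v.1 * w.2 - v.2 * w.1 ≠ 0 ∧
    Pairwise fun a b : ℤ × ℤ => Disjoint (interior (translate K v w a)) (interior (translate K v w b))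

/-- The set of the densities `A(K) / |det (v, w)|` of the lattice packings of `K`. -/
def densities (K : Set (ℝ × ℝ)) : Set ℝ :=
  {d | ∃ v w : ℝ × ℝ, IsLatticePacking K v w ∧ d = (volume K).toReal / |v.1 * w.2 - v.2 * w.1|}

/-- The lattice packing density of `K`: the supremum of the densities of its lattice packings. -/
noncomputable def deltaL (K : Set (ℝ × ℝ)) : ℝ := sSup (densities K)

/-- Reinhardt's constant `c_R = 0.902414…`. -/
noncomputable def C : ℝ := (8 - Real.sqrt 32 - Real.log 2) / (Real.sqrt 8 - 1)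

/-- The rotation by `45` degrees. -/
noncomputable def turn (z : ℝ × ℝ) : ℝ × ℝ :=
  (Real.sqrt 2 / 2 * (z.1 - z.2), Real.sqrt 2 / 2 * (z.1 + z.2))

/-- Reinhardt's smoothed octagon with inradius `1`.  Let `u = 1 - (√2 / 2) (x - y)` and
`v = 1 - y`; the lines `u = 0` and `v = 0` are sides of the regular octagon with inradius `1`,
between them there are the sides `x = 1` and `(√2 / 2) (x + y) = 1`.  The hyperbola `u v = √2 / 4`
touches these two sides at `u = 1 / 2` and at `u = √2 / 2`, and `u / t + 2 √2 t v = 2` is its tangent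
at `u = t`.  The smoothed octagon is the intersection of the half planes of these tangents with
`1 / 2 ≤ t ≤ √2 / 2` and of their images under the rotations by the multiples of `45` degrees: the
regular octagon whose corners are cut by arcs of hyperbolas. -/
def smoothedOctagon : Set (ℝ × ℝ) :=
  {z | ∀ (k : ℕ) (t : ℝ), 1 / 2 ≤ t → t ≤ Real.sqrt 2 / 2 →
    2 ≤ (1 - Real.sqrt 2 / 2 * ((turn^[k] z).1 - (turn^[k] z).2)) / t +
      2 * Real.sqrt 2 * t * (1 - (turn^[k] z).2)}

/-- **Reinhardt's conjecture.**  Every centrally symmetric convex disk has a lattice packing of density at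
least `C = (8 - √32 - log 2) / (√8 - 1)`; the smoothed octagon is a centrally symmetric convex disk,
and `C` is the greatest density of its lattice packings.  So `C` is the least lattice packing density
of a centrally symmetric convex disk. -/
theorem result :
    (∀ K, IsSymmetricDisk K → ∃ d ∈ densities K, C ≤ d) ∧
    (IsSymmetricDisk smoothedOctagon ∧ IsGreatest (densities smoothedOctagon) C) ∧
    IsLeast {x : ℝ | ∃ K, IsSymmetricDisk K ∧ x = deltaL K} C := by
  have hoct : smoothedOctagon = Pool.H61.Sm.K0 := rfl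
  have hpk : ∀ K v w, IsLatticePacking K v w ↔ Pool.H61.Sm.Pack K v w := fun K v w =>
    Pool.Agent.H66.RH.pack_iff.symm
  have H : Pool.H61.Rh.RSBound C := Pool.H61.Rh.rsBound_cR
  have h9 : C ≤ 9025 / 10000 := Pool.H61.Sm.cR_le
  have hpos : 0 < C := Pool.H61.Sm.cR_pos
  have hlow : ∀ K, IsSymmetricDisk K → ∃ d ∈ densities K, C ≤ d := by
    rintro K ⟨hk, hc, hi, o, hs⟩
    obtain ⟨v, w, h1, h2⟩ := Pool.Agent.H66.RH.exists_lattice h9 hpos H K hc hk hi o hs
    exact ⟨_, ⟨v, w, (hpk K v w).2 h1, rfl⟩, h2⟩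
  have hb : ∀ K, IsSymmetricDisk K → BddAbove (densities K) := by
    rintro K ⟨hk, hc, hi, o, hs⟩
    refine ⟨1, ?_⟩
    rintro d ⟨v, w, h, rfl⟩
    exact Pool.H61.Sm.density_le_one hc hk ((hpk K v w).1 h)
  have hsym : IsSymmetricDisk smoothedOctagon := by
    rw [hoct]
    refine ⟨Pool.H61.Sm.K0_compact, Pool.H61.Sm.K0_convex, Pool.H61.Sm.octagon_interior, 0, fun z hz => ?_⟩
    rw [add_zero, zero_sub]
    exact Pool.H61.Sm.K0_neg hz
  have hup : ∀ d ∈ densities smoothedOctagon, d ≤ C := by
    rintro d ⟨v, w, h, rfl⟩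
    exact Pool.H61.Sm.octagon_density ((hpk _ v w).1 h)
  obtain ⟨d, hd, hd'⟩ := hlow _ hsym
  have hdC : d = C := le_antisymm (hup d hd) hd'
  have hg : IsGreatest (densities smoothedOctagon) C := ⟨hdC ▸ hd, hup⟩
  refine ⟨hlow, ⟨hsym, hg⟩, ⟨smoothedOctagon, hsym, hg.csSup_eq.symm⟩, ?_⟩
  rintro x ⟨K, h1, rfl⟩
  obtain ⟨d, hd, hd'⟩ := hlow K h1
  exact hd'.trans (le_csSup (hb K h1) hd)

end Pool.Agent.Results.MP_8c99c3_co.Reinhardt
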